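import Pool.Agent.H979.BK.Stm

/-!
# S_POSM (helper116)
-/

set_option autoImplicit false

namespace Pool.Agent.H116

open Filter Topology Finset Pool.Agent.H979.BK

namespace BKx

theorem U_nonneg {d : ℕ} {μ : Equiv.Perm (Fin d) → ℝ} (hμ : IsProb μ) (i j : Fin d) :
    0 ≤ U μ i j := by
  unfold U
  refine Finset.sum_nonneg fun σ _ => ?_
  split_ifs
  · exact hμ.1 σ
  · exact le_rfl

theorem Upow_nonneg {d : ℕ} {μ : Equiv.Perm (Fin d) → ℝ} (hμ : IsProb μ) (r : ℕ) (i j : Fin d) :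
    0 ≤ (U μ ^ r) i j := by
  induction r generalizing i j with
  | zero =>
    rw [pow_zero, Matrix.one_apply]
    split_ifs <;> norm_num
  | succ r ih =>
    rw [pow_succ, Matrix.mul_apply]
    exact Finset.sum_nonneg fun k _ => mul_nonneg (ih i k) (U_nonneg hμ k j)

theorem AU_pow {d : ℕ} (μ : Equiv.Perm (Fin d) → ℝ) (δ : ℝ) (m : ℕ) :
    AU μ δ ^ m = ∑ j ∈ range (m + 1), ((m.choose j : ℝ) * δ ^ j * (1 - δ) ^ (m - j)) • U μ ^ j := by
  unfold AU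
  rw [add_comm, (Commute.smul_right (Commute.one_right _) _ :
    Commute (δ • U μ) ((1 - δ) • (1 : Matrix (Fin d) (Fin d) ℝ))).add_pow]
  refine Finset.sum_congr rfl fun j _ => ?_
  rw [smul_pow, smul_pow, one_pow]
  rw [Algebra.mul_smul_comm, mul_one, smul_smul, ← nsmul_eq_mul', ← Nat.cast_smul_eq_nsmul ℝ,
    smul_smul]
  congr 1
  ring

theorem pow_ge {δ : ℝ} (h0 : 0 < δ) (h1 : δ ≤ 1 / 2) {m : ℕ} (hm : m * δ ≤ 1) :
    Real.exp (-2) ≤ (1 - δ) ^ m := by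
  have hp : 0 < 1 - δ := by linarith
  have h2 : -2 * δ ≤ Real.log (1 - δ) := by
    have h3 := Real.one_sub_inv_le_log_of_pos hp
    have h4 : (1 - δ)⁻¹ ≤ 1 + 2 * δ := by
      rw [inv_le_iff_one_le_mul₀ hp]
      nlinarith
    linarith
  rw [← Real.exp_log (pow_pos hp m), Real.log_pow]
  apply Real.exp_le_exp.2
  have h5 : (0 : ℝ) ≤ m := Nat.cast_nonneg m
  nlinarith

theorem choose_ge {δ : ℝ} (h0 : 0 < δ) {m r : ℕ} (hm : 1 ≤ (m + 1 : ℝ) * δ) (hr : r * δ ≤ 1 / 2) :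
    (1 / 2) ^ r / (r.factorial : ℝ) ≤ (m.choose r : ℝ) * δ ^ r := by
  have hrm : r ≤ m := by
    by_contra hcon
    have h1 : m + 1 ≤ r := by omega
    have h2 : ((m : ℝ) + 1) ≤ r := by exact_mod_cast h1
    nlinarith
  have h1 : (m + 1 - r) ^ r ≤ m.descFactorial r := Nat.pow_sub_le_descFactorial m r
  rw [Nat.descFactorial_eq_factorial_mul_choose] at h1
  have h2 : (((m + 1 - r : ℕ) : ℝ)) ^ r ≤ (r.factorial : ℝ) * (m.choose r : ℝ) := by
    exact_mod_cast h1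
  have h3 : ((m + 1 - r : ℕ) : ℝ) = (m : ℝ) + 1 - r := by
    rw [Nat.cast_sub (by omega)]
    push_cast
    ring
  rw [h3] at h2
  have hf : (0 : ℝ) < r.factorial := by exact_mod_cast r.factorial_pos
  rw [div_le_iff₀ hf]
  have h4 : (1 / 2 : ℝ) ^ r ≤ (((m : ℝ) + 1 - r) * δ) ^ r := by
    apply pow_le_pow_left₀ (by norm_num)
    nlinarith
  rw [mul_pow] at h4
  have h5 := mul_le_mul_of_nonneg_right h2 (pow_nonneg h0.le r)
  nlinarith

theorem entry_ge {d : ℕ} {μ : Equiv.Perm (Fin d) → ℝ} (hμ : IsProb μ) {δ : ℝ} (h0 : 0 < δ)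
    (h1 : δ ≤ 1 / 2) (r : ℕ) (hr : r * δ ≤ 1 / 2) (i l : Fin d) :
    Real.exp (-2) * ((1 / 2) ^ r / (r.factorial : ℝ)) * (U μ ^ r) i l ≤
      ((AU μ δ) ^ ⌊1 / δ⌋₊) i l := by
  obtain ⟨m, hm⟩ : ∃ m : ℕ, m = ⌊1 / δ⌋₊ := ⟨_, rfl⟩
  rw [← hm]
  have hm1 : (m : ℝ) * δ ≤ 1 := by
    have h2 : (m : ℝ) ≤ 1 / δ := by
      rw [hm]
      exact Nat.floor_le (by positivity)
    rwa [le_div_iff₀ h0] at h2
  have hm2 : 1 ≤ ((m : ℝ) + 1) * δ := by
    have h2 : 1 / δ < (m : ℝ) + 1 := by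
      rw [hm]
      exact Nat.lt_floor_add_one _
    rw [div_lt_iff₀ h0] at h2
    exact h2.le
  have hrm : r ≤ m := by
    by_contra hcon
    have h3 : m + 1 ≤ r := by omega
    have h4 : ((m : ℝ) + 1) ≤ r := by exact_mod_cast h3
    nlinarith
  have hp : 0 < 1 - δ := by linarith
  rw [AU_pow, Matrix.sum_apply]
  have hterm : ∀ j ∈ range (m + 1),
      0 ≤ ((((m.choose j : ℝ) * δ ^ j * (1 - δ) ^ (m - j)) • U μ ^ j :
        Matrix (Fin d) (Fin d) ℝ)) i l := by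
    intro j _
    rw [Matrix.smul_apply, smul_eq_mul]
    have := Upow_nonneg hμ j i l
    positivity
  refine le_trans ?_ (Finset.single_le_sum hterm (mem_range.2 (by omega : r < m + 1)))
  rw [Matrix.smul_apply, smul_eq_mul]
  refine mul_le_mul_of_nonneg_right ?_ (Upow_nonneg hμ r i l)
  have e1 := choose_ge h0 hm2 hr
  have e2 : Real.exp (-2) ≤ (1 - δ) ^ (m - r) := by
    refine (pow_ge h0 h1 hm1).trans ?_
    exact pow_le_pow_of_le_one hp.le (by linarith) (Nat.sub_le m r)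
  calc Real.exp (-2) * ((1 / 2) ^ r / (r.factorial : ℝ))
      ≤ (1 - δ) ^ (m - r) * ((m.choose r : ℝ) * δ ^ r) := by
        apply mul_le_mul e2 e1 (by positivity) (by positivity)
    _ = (m.choose r : ℝ) * δ ^ r * (1 - δ) ^ (m - r) := by ring

theorem exists_lb {X : Type} [Finite X] (c : X → ℝ) (hc : ∀ x, 0 < c x) :
    ∃ a : ℝ, 0 < a ∧ ∀ x, a ≤ c x := by
  rcases isEmpty_or_nonempty X with h | h
  · exact ⟨1, one_pos, fun x => (h.false x).elim⟩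
  · obtain ⟨x, hx⟩ := Finite.exists_min c
    exact ⟨c x, hc x, hx⟩

end BKx

open BKx

theorem bk_posm : S_POSM := by
  intro d μ hμ hI
  choose r hr using hI
  obtain ⟨a, ha, hle⟩ := exists_lb (X := Fin d × Fin d)
    (fun p => Real.exp (-2) * ((1 / 2) ^ (r p.1 p.2) / ((r p.1 p.2).factorial : ℝ)) *
      (U μ ^ (r p.1 p.2)) p.1 p.2) (fun p => by
        have := hr p.1 p.2
        positivity)
  obtain ⟨R, hR⟩ : ∃ R : ℕ, ∀ i l, r i l ≤ R :=
    ⟨univ.sup fun p : Fin d × Fin d => r p.1 p.2, fun i l =>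
      Finset.le_sup (f := fun p : Fin d × Fin d => r p.1 p.2) (mem_univ (i, l))⟩
  refine ⟨a / 2, 1 / (2 * ((R : ℝ) + 1)), by positivity, by positivity, ?_⟩
  intro δ hδ hδ1 i l
  have hR0 : (0 : ℝ) ≤ R := Nat.cast_nonneg R
  rw [lt_div_iff₀ (by positivity)] at hδ1
  have h1 : δ ≤ 1 / 2 := by nlinarith
  have h2 : (r i l : ℝ) * δ ≤ 1 / 2 := by
    have h3 : (r i l : ℝ) ≤ R := by exact_mod_cast hR i l
    nlinarith
  have h3 := entry_ge hμ hδ h1 (r i l) h2 i l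
  have h4 := hle (i, l)
  simp only at h4
  linarith

end Pool.Agent.H116
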